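import Pool.Agent.E8helper27.CB.Stm

/-! Project CB, piece LOWK: no exponent strictly between `k` and `k + 1` preserves positivity. -/

set_option autoImplicit false

namespace E8h27.CB

namespace LowK47

/-- Taylor's formula for `(1 + u) ^ b` on `[0, 1]`. -/
theorem taylor_bound (b : ℝ) (k : ℕ) : ∃ (c : ℕ → ℝ) (C : ℝ), 0 ≤ C ∧ c 0 = 1 ∧
    ∀ u ∈ Set.Icc (0 : ℝ) 1,
      |(1 + u) ^ b - ∑ m ∈ Finset.range (k + 1), c m * u ^ m| ≤ C * u ^ (k + 1) := by
  have hf : ContDiffOn ℝ ((k : ℕ) + 1) (fun u : ℝ => (1 + u) ^ b) (Set.Icc 0 1) := by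
    intro u hu
    apply ContDiffAt.contDiffWithinAt
    apply ContDiffAt.rpow_const_of_ne (contDiffAt_const.add contDiffAt_id)
    have : 0 ≤ u := hu.1
    simp only [id]
    positivity
  obtain ⟨C, hC⟩ := exists_taylor_mean_remainder_bound (n := k) zero_le_one hf
  refine ⟨fun m => (m.factorial : ℝ)⁻¹ *
    iteratedDerivWithin m (fun u : ℝ => (1 + u) ^ b) (Set.Icc 0 1) 0, |C|, abs_nonneg _,
    by simp, fun u hu => ?_⟩
  have h := hC u hu
  rw [taylor_within_apply] at h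
  have h0 : (0 : ℝ) ≤ u := hu.1
  calc |(1 + u) ^ b - ∑ m ∈ Finset.range (k + 1), ((m.factorial : ℝ)⁻¹ *
          iteratedDerivWithin m (fun u : ℝ => (1 + u) ^ b) (Set.Icc 0 1) 0) * u ^ m|
      = ‖(1 + u) ^ b - ∑ m ∈ Finset.range (k + 1), ((m.factorial : ℝ)⁻¹ * (u - 0) ^ m) •
          iteratedDerivWithin m (fun u : ℝ => (1 + u) ^ b) (Set.Icc 0 1) 0‖ := by
        rw [Real.norm_eq_abs]
        congr 2
        refine Finset.sum_congr rfl (fun m _ => ?_)
        rw [sub_zero, smul_eq_mul]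
        ring
    _ ≤ C * (u - 0) ^ (k + 1) := h
    _ ≤ |C| * u ^ (k + 1) := by
        rw [sub_zero]
        exact mul_le_mul_of_nonneg_right (le_abs_self C) (by positivity)

open Polynomial in
/-- the polynomial `∏_{m = 1}^{k} (X - 2 ^ m)` -/
noncomputable def P (k : ℕ) : ℝ[X] := ∏ m ∈ Finset.range k, (X - C ((2 : ℝ) ^ (m + 1)))

theorem evalP (k : ℕ) (x : ℝ) : ∑ i : Fin (k + 1), (P k).coeff i * x ^ (i : ℕ) =
    ∏ m ∈ Finset.range k, (x - 2 ^ (m + 1)) := by
  have hd : (P k).natDegree < k + 1 := by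
    have : (P k).natDegree = k := by
      unfold P
      rw [Polynomial.natDegree_prod_of_monic _ _ (fun m _ => Polynomial.monic_X_sub_C _),
        Finset.sum_congr rfl (fun m _ => Polynomial.natDegree_X_sub_C _)]
      simp
    omega
  have h := Polynomial.eval_eq_sum_range' hd x
  rw [Finset.sum_range] at h
  rw [← h]
  unfold P
  rw [Polynomial.eval_prod]
  simp

theorem evalP_zero (k m : ℕ) (h1 : 1 ≤ m) (h2 : m ≤ k) :
    ∑ i : Fin (k + 1), (P k).coeff i * ((2 : ℝ) ^ m) ^ (i : ℕ) = 0 := by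
  rw [evalP]
  apply Finset.prod_eq_zero (i := m - 1)
  · rw [Finset.mem_range]; omega
  · rw [Nat.sub_add_cancel h1, sub_self]

theorem evalP_pos (k : ℕ) (b : ℝ) (hb : (k : ℝ) < b) :
    0 < ∑ i : Fin (k + 1), (P k).coeff i * ((2 : ℝ) ^ b) ^ (i : ℕ) := by
  rw [evalP]
  apply Finset.prod_pos
  intro m hm
  rw [Finset.mem_range] at hm
  rw [sub_pos, ← Real.rpow_natCast]
  apply Real.rpow_lt_rpow_of_exponent_lt (by norm_num)
  have : ((m + 1 : ℕ) : ℝ) ≤ (k : ℝ) := by exact_mod_cast hm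
  linarith

/-- the choice of `d` -/
theorem exists_d (k : ℕ) (b M N : ℝ) (hb : b < k + 1) (hN : 0 < N) :
    ∃ d : ℝ, 0 < d ∧ d * 4 ^ k ≤ 1 ∧ M * d ^ (k + 1) < d ^ b * N := by
  have hε : 0 < (k : ℝ) + 1 - b := by linarith
  have ht : Filter.Tendsto (fun d : ℝ => M * d ^ ((k : ℝ) + 1 - b)) (nhdsWithin 0 (Set.Ioi 0))
      (nhds 0) := by
    have h := (Real.continuousAt_rpow_const (0 : ℝ) ((k : ℝ) + 1 - b) (Or.inr hε.le)).tendsto
    rw [Real.zero_rpow hε.ne'] at h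
    have h2 := (h.mono_left (nhdsWithin_le_nhds (s := Set.Ioi (0 : ℝ)))).const_mul M
    simpa using h2
  have ht2 : Filter.Tendsto (fun d : ℝ => d * 4 ^ k) (nhdsWithin 0 (Set.Ioi 0)) (nhds 0) := by
    have h : Filter.Tendsto (fun d : ℝ => d * 4 ^ k) (nhds 0) (nhds (0 * 4 ^ k)) :=
      (continuous_id.mul continuous_const).tendsto 0
    rw [zero_mul] at h
    exact h.mono_left nhdsWithin_le_nhds
  have e1 := ht.eventually (gt_mem_nhds hN)
  have e2 := ht2.eventually (gt_mem_nhds (zero_lt_one : (0 : ℝ) < 1))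
  have e3 : ∀ᶠ d : ℝ in nhdsWithin 0 (Set.Ioi 0), d ∈ Set.Ioi (0 : ℝ) := self_mem_nhdsWithin
  obtain ⟨d, h1, h2, h3⟩ := (e1.and (e2.and e3)).exists
  have hd : 0 < d := h3
  refine ⟨d, hd, h2.le, ?_⟩
  have h4 : M * d ^ (k + 1) = d ^ b * (M * d ^ ((k : ℝ) + 1 - b)) := by
    have : d ^ (k + 1) = d ^ b * d ^ ((k : ℝ) + 1 - b) := by
      rw [← Real.rpow_add hd, ← Real.rpow_natCast]
      congr 1
      push_cast
      ring
    rw [this]; ring
  rw [h4]
  exact mul_lt_mul_of_pos_left h1 (Real.rpow_pos_of_pos hd b)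

/-- the numerical inequality -/
theorem num (k : ℕ) (b : ℝ) (hb1 : (k : ℝ) < b) (hb2 : b < k + 1) :
    ∃ d : ℝ, 0 < d ∧
      ∑ i : Fin (k + 1), ∑ l : Fin (k + 1), (P k).coeff i * (P k).coeff l *
        (1 + d * 2 ^ (i : ℕ) * 2 ^ (l : ℕ)) ^ b
      - (∑ i : Fin (k + 1), (P k).coeff i) ^ 2
      - (∑ i : Fin (k + 1), (P k).coeff i * (Real.sqrt d * 2 ^ (i : ℕ)) ^ b) ^ 2 < 0 := by
  obtain ⟨c, C, hC0, hc0, hC⟩ := taylor_bound b k
  set y : Fin (k + 1) → ℝ := fun i => (P k).coeff i with hy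
  set W : ℝ := ∑ i : Fin (k + 1), |y i| * ((2 : ℝ) ^ (i : ℕ)) ^ (k + 1) with hW
  set Pb : ℝ := ∑ i : Fin (k + 1), y i * ((2 : ℝ) ^ b) ^ (i : ℕ) with hPb
  have hPb0 : 0 < Pb := evalP_pos k b hb1
  obtain ⟨d, hd, hd4, hdM⟩ := exists_d k b (C * W ^ 2) (Pb ^ 2) hb2 (by positivity)
  refine ⟨d, hd, ?_⟩
  -- the `Z` term
  have hZ : (∑ i : Fin (k + 1), y i * (Real.sqrt d * 2 ^ (i : ℕ)) ^ b) ^ 2 = d ^ b * Pb ^ 2 := by
    have h1 : ∑ i : Fin (k + 1), y i * (Real.sqrt d * 2 ^ (i : ℕ)) ^ b =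
        (Real.sqrt d) ^ b * Pb := by
      rw [hPb, Finset.mul_sum]
      refine Finset.sum_congr rfl (fun i _ => ?_)
      rw [Real.mul_rpow (Real.sqrt_nonneg d) (by positivity)]
      have : ((2 : ℝ) ^ (i : ℕ)) ^ b = ((2 : ℝ) ^ b) ^ (i : ℕ) := by
        rw [← Real.rpow_natCast, ← Real.rpow_natCast, ← Real.rpow_mul (by norm_num),
          ← Real.rpow_mul (by norm_num), mul_comm]
      rw [this]; ring
    rw [h1, mul_pow]
    congr 1
    rw [← Real.rpow_natCast, ← Real.rpow_mul (Real.sqrt_nonneg d), mul_comm b,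
      Real.rpow_mul (Real.sqrt_nonneg d), Real.rpow_natCast, Real.sq_sqrt hd.le]
  -- the Taylor polynomial
  have hT : ∑ i : Fin (k + 1), ∑ l : Fin (k + 1), y i * y l *
      (∑ m ∈ Finset.range (k + 1), c m * (d * 2 ^ (i : ℕ) * 2 ^ (l : ℕ)) ^ m) =
      (∑ i : Fin (k + 1), y i) ^ 2 := by
    have h1 : ∑ i : Fin (k + 1), ∑ l : Fin (k + 1), y i * y l *
        (∑ m ∈ Finset.range (k + 1), c m * (d * 2 ^ (i : ℕ) * 2 ^ (l : ℕ)) ^ m) =
        ∑ m ∈ Finset.range (k + 1), c m * d ^ m *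
          (∑ i : Fin (k + 1), y i * ((2 : ℝ) ^ m) ^ (i : ℕ)) ^ 2 := by
      have h2 : ∀ i l : Fin (k + 1), y i * y l *
        (∑ m ∈ Finset.range (k + 1), c m * (d * 2 ^ (i : ℕ) * 2 ^ (l : ℕ)) ^ m) =
          ∑ m ∈ Finset.range (k + 1), c m * d ^ m * ((y i * ((2 : ℝ) ^ m) ^ (i : ℕ)) *
            (y l * ((2 : ℝ) ^ m) ^ (l : ℕ))) := by
        intro i l
        rw [Finset.mul_sum]
        refine Finset.sum_congr rfl (fun m _ => ?_)
        rw [mul_pow, mul_pow, ← pow_mul, ← pow_mul, ← pow_mul, ← pow_mul, mul_comm (i : ℕ) m,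
          mul_comm (l : ℕ) m]
        ring
      simp only [h2]
      rw [Finset.sum_congr rfl (fun i _ => Finset.sum_comm), Finset.sum_comm]
      refine Finset.sum_congr rfl (fun m _ => ?_)
      rw [sq, Finset.sum_mul_sum, Finset.mul_sum]
      refine Finset.sum_congr rfl (fun i _ => ?_)
      rw [Finset.mul_sum]
    rw [h1, Finset.sum_range_succ', Finset.sum_eq_zero]
    · simp [hc0]
    · intro m hm
      rw [Finset.mem_range] at hm
      rw [evalP_zero k (m + 1) (by omega) (by omega)]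
      ring
  have hmain : ∑ i : Fin (k + 1), ∑ l : Fin (k + 1), y i * y l *
        (1 + d * 2 ^ (i : ℕ) * 2 ^ (l : ℕ)) ^ b - (∑ i : Fin (k + 1), y i) ^ 2 ≤
        C * W ^ 2 * d ^ (k + 1) := by
    rw [← hT, ← Finset.sum_sub_distrib]
    simp only [← Finset.sum_sub_distrib]
    have h3 : ∀ i l : Fin (k + 1), y i * y l * (1 + d * 2 ^ (i : ℕ) * 2 ^ (l : ℕ)) ^ b -
        y i * y l * (∑ m ∈ Finset.range (k + 1), c m * (d * 2 ^ (i : ℕ) * 2 ^ (l : ℕ)) ^ m) ≤
        C * d ^ (k + 1) * ((|y i| * ((2 : ℝ) ^ (i : ℕ)) ^ (k + 1)) *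
          (|y l| * ((2 : ℝ) ^ (l : ℕ)) ^ (k + 1))) := by
      intro i l
      have hi : (2 : ℝ) ^ (i : ℕ) ≤ 2 ^ k :=
        pow_le_pow_right₀ (by norm_num) (Nat.lt_succ_iff.mp i.2)
      have hl : (2 : ℝ) ^ (l : ℕ) ≤ 2 ^ k :=
        pow_le_pow_right₀ (by norm_num) (Nat.lt_succ_iff.mp l.2)
      have hu0 : 0 ≤ d * 2 ^ (i : ℕ) * 2 ^ (l : ℕ) := by positivity
      have hu1 : d * 2 ^ (i : ℕ) * 2 ^ (l : ℕ) ≤ 1 := by
        calc d * 2 ^ (i : ℕ) * 2 ^ (l : ℕ) ≤ d * 2 ^ k * 2 ^ k := by gcongr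
          _ = d * 4 ^ k := by
            rw [mul_assoc, ← mul_pow]; norm_num
          _ ≤ 1 := hd4
      have h4 := hC _ ⟨hu0, hu1⟩
      rw [← mul_sub]
      calc y i * y l * ((1 + d * 2 ^ (i : ℕ) * 2 ^ (l : ℕ)) ^ b -
          ∑ m ∈ Finset.range (k + 1), c m * (d * 2 ^ (i : ℕ) * 2 ^ (l : ℕ)) ^ m)
          ≤ |y i * y l * ((1 + d * 2 ^ (i : ℕ) * 2 ^ (l : ℕ)) ^ b -
          ∑ m ∈ Finset.range (k + 1), c m * (d * 2 ^ (i : ℕ) * 2 ^ (l : ℕ)) ^ m)| := le_abs_self _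
        _ = (|y i| * |y l|) * |(1 + d * 2 ^ (i : ℕ) * 2 ^ (l : ℕ)) ^ b -
          ∑ m ∈ Finset.range (k + 1), c m * (d * 2 ^ (i : ℕ) * 2 ^ (l : ℕ)) ^ m| := by
            rw [abs_mul, abs_mul]
        _ ≤ (|y i| * |y l|) * (C * (d * 2 ^ (i : ℕ) * 2 ^ (l : ℕ)) ^ (k + 1)) := by gcongr
        _ = C * d ^ (k + 1) * ((|y i| * ((2 : ℝ) ^ (i : ℕ)) ^ (k + 1)) *
          (|y l| * ((2 : ℝ) ^ (l : ℕ)) ^ (k + 1))) := by
            rw [mul_pow, mul_pow]; ring
    calc _ ≤ ∑ i : Fin (k + 1), ∑ l : Fin (k + 1), C * d ^ (k + 1) *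
          ((|y i| * ((2 : ℝ) ^ (i : ℕ)) ^ (k + 1)) *
          (|y l| * ((2 : ℝ) ^ (l : ℕ)) ^ (k + 1))) :=
          Finset.sum_le_sum (fun i _ => Finset.sum_le_sum (fun l _ => h3 i l))
      _ = C * W ^ 2 * d ^ (k + 1) := by
          rw [hW, sq, Finset.sum_mul_sum]
          simp only [Finset.mul_sum, Finset.sum_mul]
          refine Finset.sum_congr rfl (fun i _ => Finset.sum_congr rfl (fun l _ => ?_))
          ring
  rw [hZ]
  linarith

end LowK47

open LowK47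

theorem t_LOWK : S_LOWK := by
  classical
  intro k b hb1 hb2 V _ G S p q hS hcl hp hq hpq hadj
  have hb0 : b ≠ 0 := by
    have : (0 : ℝ) ≤ k := Nat.cast_nonneg k
    linarith
  obtain ⟨d, hd, hnum⟩ := num k b hb1 hb2
  let e : S ≃ Fin (k + 1) := S.equivFinOfCardEq hS
  let s : Fin (k + 1) → V := fun i => (e.symm i : V)
  have hsS : ∀ i, s i ∈ S := fun i => (e.symm i).2
  have hsinj : Function.Injective s := fun i j h => e.symm.injective (Subtype.ext h)
  have hsp : ∀ i, s i ≠ p := fun i h => hp (h ▸ hsS i)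
  have hsq : ∀ i, s i ≠ q := fun i h => hq (h ▸ hsS i)
  have hssurj : ∀ v, v ∉ S → ∀ i, s i ≠ v := fun v hv i h => hv (h ▸ hsS i)
  let h : Fin (k + 1) → ℝ := fun i => Real.sqrt d * 2 ^ (i : ℕ)
  have hh0 : ∀ i, 0 ≤ h i := fun i => by positivity
  let F : V → ℝ := fun v => (if v ∈ S then 1 else 0) + (if v = p then 1 else 0)
  let H : V → ℝ := fun v => (∑ i, if s i = v then h i else 0) + (if v = q then 1 else 0)
  have F0 : ∀ v, 0 ≤ F v := fun v => by
    simp only [F]; positivity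
  have H0 : ∀ v, 0 ≤ H v := fun v => by
    simp only [H]
    apply add_nonneg
    · apply Finset.sum_nonneg
      intro i _
      split_ifs
      · exact hh0 i
      · exact le_rfl
    · split_ifs <;> norm_num
  have Fs : ∀ i, F (s i) = 1 := fun i => by simp [F, hsS i, hsp i]
  have Fp : F p = 1 := by simp [F, hp]
  have Fq : F q = 0 := by simp [F, hq, hpq.symm]
  have Hs : ∀ i, H (s i) = h i := fun i => by
    simp [H, hsq i, hsinj.eq_iff]
  have Hp : H p = 0 := by simp [H, hpq, hsp]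
  have Hq : H q = 1 := by simp [H, hsq]
  have Fz : ∀ v, v ∉ S → v ≠ p → F v = 0 := fun v h1 h2 => by simp [F, h1, h2]
  have Hz : ∀ v, v ∉ S → v ≠ q → H v = 0 := fun v h1 h2 => by simp [H, hssurj v h1, h2]
  refine ⟨fun i j => F i * F j + H i * H j, ⟨fun i j => by ring, fun x => ?_⟩, fun i j => ?_,
    fun i j hij hn => ?_, ?_⟩
  · have : ∑ i, ∑ j, x i * (F i * F j + H i * H j) * x j =
        (∑ i, x i * F i) ^ 2 + (∑ i, x i * H i) ^ 2 := by
      rw [sq, sq, Finset.sum_mul_sum, Finset.sum_mul_sum, ← Finset.sum_add_distrib]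
      refine Finset.sum_congr rfl (fun i _ => ?_)
      rw [← Finset.sum_add_distrib]
      refine Finset.sum_congr rfl (fun j _ => ?_)
      ring
    rw [this]; positivity
  · have h1 := F0 i; have h2 := F0 j; have h3 := H0 i; have h4 := H0 j
    positivity
  · change F i * F j + H i * H j = 0
    by_cases hi : i ∈ S
    · by_cases hj : j ∈ S
      · exact absurd (hcl i hi j hj hij) hn
      · have hjp : j ≠ p := fun hh => hn (hh ▸ (hadj i hi).1)
        have hjq : j ≠ q := fun hh => hn (hh ▸ (hadj i hi).2)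
        rw [Fz j hj hjp, Hz j hj hjq]; ring
    · by_cases hj : j ∈ S
      · have hip : i ≠ p := fun hh => hn (hh ▸ (hadj j hj).1.symm)
        have hiq : i ≠ q := fun hh => hn (hh ▸ (hadj j hj).2.symm)
        rw [Fz i hi hip, Hz i hi hiq]; ring
      · by_cases hip : i = p
        · have hjp : j ≠ p := fun hh => hij (hip.trans hh.symm)
          have hiq : i ≠ q := fun hh => hpq (hip.symm.trans hh)
          rw [Fz j hj hjp, Hz i hi hiq]; ring
        · by_cases hiq : i = q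
          · have hjq : j ≠ q := fun hh => hij (hiq.trans hh.symm)
            rw [Fz i hi hip, Hz j hj hjq]; ring
          · rw [Fz i hi hip, Hz i hi hiq]; ring
  · let y : Fin (k + 1) → ℝ := fun i => (P k).coeff i
    let Y : ℝ := ∑ i, y i
    let Z : ℝ := ∑ i, y i * (h i) ^ b
    let x : V → ℝ := fun v => (∑ i, if s i = v then y i else 0) + (if v = p then -Y else 0) +
      (if v = q then -Z else 0)
    have hL : ∀ g : V → ℝ, ∑ v, x v * g v = ∑ i, y i * g (s i) - Y * g p - Z * g q := by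
      intro g
      have h1 : ∀ v, x v * g v = (∑ i, (if s i = v then y i * g v else 0)) +
          (if v = p then -Y * g v else 0) + (if v = q then -Z * g v else 0) := by
        intro v
        simp only [x, add_mul, Finset.sum_mul, ite_mul, zero_mul]
      rw [Finset.sum_congr rfl (fun v _ => h1 v), Finset.sum_add_distrib, Finset.sum_add_distrib,
        Finset.sum_comm]
      simp only [Finset.sum_ite_eq, Finset.sum_ite_eq', Finset.mem_univ, if_true]
      ring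
    refine ⟨x, ?_⟩
    have hB : ∀ i, ∑ j, x i * (F i * F j + H i * H j) ^ b * x j =
        x i * (∑ l, y l * (F i * F (s l) + H i * H (s l)) ^ b - Y * (F i * F p + H i * H p) ^ b -
          Z * (F i * F q + H i * H q) ^ b) := by
      intro i
      rw [← hL (fun j => (F i * F j + H i * H j) ^ b), Finset.mul_sum]
      refine Finset.sum_congr rfl (fun j _ => ?_)
      ring
    change ∑ i, ∑ j, x i * (F i * F j + H i * H j) ^ b * x j < 0
    rw [Finset.sum_congr rfl (fun i _ => hB i), hL (fun i => (∑ l, y l * (F i * F (s l) +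
      H i * H (s l)) ^ b - Y * (F i * F p + H i * H p) ^ b - Z * (F i * F q + H i * H q) ^ b))]
    simp only [Fs, Fp, Fq, Hs, Hp, Hq, mul_one, one_mul, mul_zero, zero_mul, add_zero, zero_add,
      Real.one_rpow, Real.zero_rpow hb0]
    have hE : ∑ i, y i * (∑ l, y l * (1 + h i * h l) ^ b - Y - Z * (h i) ^ b) =
        ∑ i, ∑ l, y i * y l * (1 + d * 2 ^ (i : ℕ) * 2 ^ (l : ℕ)) ^ b - Y ^ 2 - Z ^ 2 := by
      have h1 : ∀ i, y i * (∑ l, y l * (1 + h i * h l) ^ b - Y - Z * (h i) ^ b) =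
          (∑ l, y i * y l * (1 + d * 2 ^ (i : ℕ) * 2 ^ (l : ℕ)) ^ b) - y i * Y -
            (y i * (h i) ^ b) * Z := by
        intro i
        have h2 : ∀ l, (1 + h i * h l) = (1 + d * 2 ^ (i : ℕ) * 2 ^ (l : ℕ)) := by
          intro l
          have : h i * h l = (Real.sqrt d * Real.sqrt d) * 2 ^ (i : ℕ) * 2 ^ (l : ℕ) := by
            simp only [h]; ring
          rw [this, Real.mul_self_sqrt hd.le]
        simp only [h2]
        rw [mul_sub, mul_sub, Finset.mul_sum]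
        congr 1
        · congr 1
          refine Finset.sum_congr rfl (fun l _ => ?_)
          ring
        · ring
      rw [Finset.sum_congr rfl (fun i _ => h1 i), Finset.sum_sub_distrib, Finset.sum_sub_distrib,
        ← Finset.sum_mul, ← Finset.sum_mul]
      rw [sq, sq]
    have hYY : ∑ i, y i = Y := rfl
    have hZZ : ∑ i, y i * (h i) ^ b = Z := rfl
    rw [hE, hYY, hZZ]
    have := hnum
    have hfin : ∑ i, ∑ l, y i * y l * (1 + d * 2 ^ (i : ℕ) * 2 ^ (l : ℕ)) ^ b - Y ^ 2 - Z ^ 2 < 0 :=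
      hnum
    nlinarith [hfin]

end E8h27.CB
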