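import Pool.Agent.E8helper27.CB.Stm2

/-! Project CB2, piece MONO. -/

set_option autoImplicit false

namespace E8h27.CB

namespace Mono47

theorem quad_nonneg (s t U V W : ℝ) (hU : 0 ≤ U) (hW : 0 ≤ W) (hV : V ^ 2 ≤ U * W) :
    0 ≤ s ^ 2 * U + 2 * s * t * V + t ^ 2 * W := by
  have h0 : 0 ≤ s ^ 2 * U + t ^ 2 * W := by positivity
  have h1 : (2 * s * t * V) ^ 2 ≤ (s ^ 2 * U + t ^ 2 * W) ^ 2 := by
    have h2 : s ^ 2 * t ^ 2 * V ^ 2 ≤ s ^ 2 * t ^ 2 * (U * W) :=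
      mul_le_mul_of_nonneg_left hV (by positivity)
    nlinarith [sq_nonneg (s ^ 2 * U - t ^ 2 * W)]
  have h3 := (abs_le_of_sq_le_sq' h1 h0).1
  linarith

theorem pow_ineq (g d e b x : ℝ) (hg : 1 ≤ g) (hd : 1 ≤ d) (he : 1 ≤ e) (hb : 0 ≤ b)
    (hbde : b * b ≤ d * e) (hx0 : 0 ≤ x) (hx1 : x ≤ 1) :
    ((1 + x * (b - 1)) ^ (g - 1)) ^ 2 ≤
      (1 + x * (d - 1)) ^ (g - 1) * (1 + x * (e - 1)) ^ (g - 1) := by
  have hu : 0 ≤ 1 + x * (d - 1) := by nlinarith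
  have hw : 0 ≤ 1 + x * (e - 1) := by nlinarith
  have hv : 0 ≤ 1 + x * (b - 1) := by nlinarith
  have h2 : 2 * b ≤ d + e := by
    have h : (2 * b) ^ 2 ≤ (d + e) ^ 2 := by nlinarith [sq_nonneg (d - e)]
    exact (abs_le_of_sq_le_sq' h (by linarith)).2
  have h3 : (1 + x * (b - 1)) ^ 2 ≤ (1 + x * (d - 1)) * (1 + x * (e - 1)) := by
    nlinarith [mul_nonneg (mul_nonneg hx0 (sub_nonneg.mpr hx1)) (sub_nonneg.mpr h2),
      mul_nonneg (mul_nonneg hx0 hx0) (sub_nonneg.mpr hbde)]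
  rw [← Real.mul_rpow hu hw, ← Real.rpow_natCast, ← Real.rpow_mul hv, mul_comm (g - 1),
    Real.rpow_mul hv, Real.rpow_natCast]
  exact Real.rpow_le_rpow (by positivity) h3 (by linarith)

theorem deriv_one (g c x : ℝ) (hg : 1 ≤ g) :
    HasDerivAt (fun x : ℝ => (1 + x * c) ^ g) (c * g * (1 + x * c) ^ (g - 1)) x := by
  have h1 : HasDerivAt (fun x : ℝ => 1 + x * c) c x := by
    simpa using ((hasDerivAt_id x).mul_const c).const_add 1
  exact h1.rpow_const (Or.inr hg)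

theorem main_ineq (g d e b s t : ℝ) (hg : 1 ≤ g) (hd : 1 < d) (he : 1 < e) (hb : 0 ≤ b)
    (hb1 : b ≠ 1) (hbde : b * b ≤ d * e) :
    0 ≤ s ^ 2 * ((d ^ g - 1) / (d - 1)) + 2 * s * t * ((b ^ g - 1) / (b - 1)) +
      t ^ 2 * ((e ^ g - 1) / (e - 1)) := by
  have hd0 : d - 1 ≠ 0 := by linarith
  have he0 : e - 1 ≠ 0 := by linarith
  have hb0 : b - 1 ≠ 0 := sub_ne_zero.mpr hb1
  let F : ℝ → ℝ := fun x => s ^ 2 / (d - 1) * (1 + x * (d - 1)) ^ g +
    2 * s * t / (b - 1) * (1 + x * (b - 1)) ^ g + t ^ 2 / (e - 1) * (1 + x * (e - 1)) ^ g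
  have hF : ∀ x, HasDerivAt F (g * (s ^ 2 * (1 + x * (d - 1)) ^ (g - 1) +
      2 * s * t * (1 + x * (b - 1)) ^ (g - 1) + t ^ 2 * (1 + x * (e - 1)) ^ (g - 1))) x := by
    intro x
    have h := (((deriv_one g (d - 1) x hg).const_mul (s ^ 2 / (d - 1))).add
      ((deriv_one g (b - 1) x hg).const_mul (2 * s * t / (b - 1)))).add
      ((deriv_one g (e - 1) x hg).const_mul (t ^ 2 / (e - 1)))
    refine h.congr_deriv ?_
    field_simp
  have hmono : MonotoneOn F (Set.Icc 0 1) := by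
    apply monotoneOn_of_deriv_nonneg (convex_Icc 0 1)
    · exact fun x _ => (hF x).continuousAt.continuousWithinAt
    · exact fun x _ => (hF x).differentiableAt.differentiableWithinAt
    · intro x hx
      rw [interior_Icc, Set.mem_Ioo] at hx
      rw [(hF x).deriv]
      apply mul_nonneg (by linarith)
      have hu : 0 ≤ 1 + x * (d - 1) := by nlinarith [hx.1]
      have hw : 0 ≤ 1 + x * (e - 1) := by nlinarith [hx.1]
      exact quad_nonneg s t _ _ _ (Real.rpow_nonneg hu _) (Real.rpow_nonneg hw _)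
        (pow_ineq g d e b x hg hd.le he.le hb hbde hx.1.le hx.2.le)
  have h01 := hmono (Set.left_mem_Icc.mpr zero_le_one) (Set.right_mem_Icc.mpr zero_le_one)
    zero_le_one
  have e0 : F 0 = s ^ 2 / (d - 1) + 2 * s * t / (b - 1) + t ^ 2 / (e - 1) := by
    simp [F]
  have e1 : F 1 = s ^ 2 / (d - 1) * d ^ g + 2 * s * t / (b - 1) * b ^ g +
      t ^ 2 / (e - 1) * e ^ g := by
    simp [F]
  rw [e0, e1] at h01
  have e2 : s ^ 2 * ((d ^ g - 1) / (d - 1)) + 2 * s * t * ((b ^ g - 1) / (b - 1)) +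
      t ^ 2 * ((e ^ g - 1) / (e - 1)) =
      (s ^ 2 / (d - 1) * d ^ g + 2 * s * t / (b - 1) * b ^ g + t ^ 2 / (e - 1) * e ^ g) -
      (s ^ 2 / (d - 1) + 2 * s * t / (b - 1) + t ^ 2 / (e - 1)) := by ring
  rw [e2]
  linarith

end Mono47

open Mono47

theorem t_MONO : S_MONO := by
  intro g d e b hg hd he hb hbde
  rcases hd.eq_or_lt with rfl | hd
  · simp
  rcases he.eq_or_lt with rfl | he
  · simp
  by_cases hb1 : b = 1
  · subst hb1
    simp
  set X := (d ^ g - 1) / (d - 1) with hX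
  set Y := (b ^ g - 1) / (b - 1) with hY
  set Z := (e ^ g - 1) / (e - 1) with hZ
  have hd0 : 0 < d - 1 := by linarith
  have he0 : 0 < e - 1 := by linarith
  have hb0 : b - 1 ≠ 0 := sub_ne_zero.mpr hb1
  have hXp : 0 < X := by
    apply div_pos _ hd0
    have := Real.one_lt_rpow hd (by linarith : (0 : ℝ) < g)
    linarith
  have h1 := main_ineq g d e b (-Y) X hg hd he hb hb1 hbde
  rw [← hX, ← hY, ← hZ] at h1
  have h2 : 0 ≤ X * (X * Z - Y ^ 2) := by nlinarith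
  have h3 : 0 ≤ X * Z - Y ^ 2 := by
    by_contra hc
    push Not at hc
    nlinarith [mul_pos hXp (neg_pos.mpr hc)]
  have e1 : d ^ g - 1 = X * (d - 1) := by rw [hX]; field_simp
  have e2 : b ^ g - 1 = Y * (b - 1) := by rw [hY]; field_simp
  have e3 : e ^ g - 1 = Z * (e - 1) := by rw [hZ]; field_simp
  rw [e1, e2, e3]
  have h4 : 0 ≤ (b - 1) ^ 2 * ((d - 1) * (e - 1)) := by positivity
  nlinarith [mul_nonneg h4 h3]

end E8h27.CB
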